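import Pool.Agent.Helper73.SM.Goals

/-!
# Project SM: number of primitive vectors of a lattice in the unit square
-/

set_option autoImplicit false

namespace Pool.Agent.Helper3.SM

open Pool.Agent.Helper73.SM

theorem nm_nonneg (v : ℝ × ℝ) : 0 ≤ nm v := le_max_of_le_left (abs_nonneg _)

theorem dr_le (u v : ℝ × ℝ) : |dr u v| ≤ 2 * (nm u * nm v) := by
  have h1 : |u.1| ≤ nm u := le_max_left _ _
  have h2 : |u.2| ≤ nm u := le_max_right _ _
  have h3 : |v.1| ≤ nm v := le_max_left _ _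
  have h4 : |v.2| ≤ nm v := le_max_right _ _
  rw [dr]
  calc |u.1 * v.2 - u.2 * v.1| ≤ |u.1 * v.2| + |u.2 * v.1| := abs_sub _ _
    _ = |u.1| * |v.2| + |u.2| * |v.1| := by rw [abs_mul, abs_mul]
    _ ≤ nm u * nm v + nm u * nm v :=
        add_le_add (mul_le_mul h1 h4 (abs_nonneg _) (nm_nonneg _))
          (mul_le_mul h2 h3 (abs_nonneg _) (nm_nonneg _))
    _ = 2 * (nm u * nm v) := by ring

theorem prm_core (u v : ℝ × ℝ) (hD : dr u v ≠ 0) (h12 : nm u ≤ nm v)
    (h : nm u * nm v ≤ 2 * |dr u v|) :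
    ∃ T : Finset (ℤ × ℤ), (∀ A B : ℤ, IsCoprime A B → nm (cb A B u v) ≤ 1 → (A, B) ∈ T) ∧
      (T.card : ℝ) ≤ 2 + 72 / |dr u v| := by
  set D := |dr u v| with hDdef
  have hDpos : 0 < D := abs_pos.mpr hD
  set X := 2 * nm v / D with hX
  set Y := 2 * nm u / D with hY
  have hX0 : 0 ≤ X := div_nonneg (mul_nonneg (by norm_num) (nm_nonneg _)) hDpos.le
  have hY0 : 0 ≤ Y := div_nonneg (mul_nonneg (by norm_num) (nm_nonneg _)) hDpos.le
  have hYX : Y ≤ X := by
    rw [hX, hY]
    exact div_le_div_of_nonneg_right (by linarith) hDpos.le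
  have hXY : X * Y ≤ 8 / D := by
    rw [hX, hY, div_mul_div_comm, div_le_div_iff₀ (by positivity) hDpos]
    nlinarith
  have hA : ∀ A B : ℤ, nm (cb A B u v) ≤ 1 → |(A : ℝ)| ≤ X ∧ |(B : ℝ)| ≤ Y := by
    intro A B hn
    have e1 : dr (cb A B u v) v = (A : ℝ) * dr u v := by simp only [dr, cb]; ring
    have e2 : dr u (cb A B u v) = (B : ℝ) * dr u v := by simp only [dr, cb]; ring
    have i1 := dr_le (cb A B u v) v
    have i2 := dr_le u (cb A B u v)
    rw [e1, abs_mul] at i1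
    rw [e2, abs_mul] at i2
    have n1 := nm_nonneg u
    have n2 := nm_nonneg v
    constructor
    · rw [hX, le_div_iff₀ hDpos]
      nlinarith
    · rw [hY, le_div_iff₀ hDpos]
      nlinarith
  by_cases hY1 : Y < 1
  · refine ⟨{(1, 0), (-1, 0)}, ?_, ?_⟩
    · intro A B hc hn
      obtain ⟨_, hB⟩ := hA A B hn
      have hB0 : B = 0 := by
        have : |(B : ℝ)| < 1 := lt_of_le_of_lt hB hY1
        have h3 : |B| < 1 := by exact_mod_cast this
        exact Int.abs_lt_one_iff.mp h3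
      subst hB0
      rw [isCoprime_zero_right] at hc
      rcases Int.isUnit_iff.mp hc with h4 | h4
      · rw [h4]; simp
      · rw [h4]; simp
    · have : ({(1, 0), (-1, 0)} : Finset (ℤ × ℤ)).card ≤ 2 := Finset.card_le_two
      have h3 : ((({(1, 0), (-1, 0)} : Finset (ℤ × ℤ)).card : ℕ) : ℝ) ≤ 2 := by exact_mod_cast this
      have h4 : 0 ≤ 72 / D := by positivity
      linarith
  · push Not at hY1
    refine ⟨Finset.Icc (-⌊X⌋) ⌊X⌋ ×ˢ Finset.Icc (-⌊Y⌋) ⌊Y⌋, ?_, ?_⟩
    · intro A B _ hn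
      obtain ⟨hA1, hB1⟩ := hA A B hn
      have h5 := abs_le.mp hA1
      have h6 := abs_le.mp hB1
      rw [Finset.mem_product, Finset.mem_Icc, Finset.mem_Icc]
      refine ⟨⟨?_, Int.le_floor.mpr h5.2⟩, ⟨?_, Int.le_floor.mpr h6.2⟩⟩
      · have : -A ≤ ⌊X⌋ := Int.le_floor.mpr (by push_cast; linarith [h5.1])
        simp only
        linarith
      · have : -B ≤ ⌊Y⌋ := Int.le_floor.mpr (by push_cast; linarith [h6.1])
        simp only
        linarith
    · rw [Finset.card_product, Int.card_Icc, Int.card_Icc]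
      have hfX : (0 : ℤ) ≤ ⌊X⌋ := Int.floor_nonneg.mpr hX0
      have hfY : (0 : ℤ) ≤ ⌊Y⌋ := Int.floor_nonneg.mpr hY0
      have c1 : (((⌊X⌋ + 1 - -⌊X⌋).toNat : ℕ) : ℝ) = 2 * (⌊X⌋ : ℝ) + 1 := by
        have : (((⌊X⌋ + 1 - -⌊X⌋).toNat : ℕ) : ℤ) = 2 * ⌊X⌋ + 1 := by
          rw [Int.toNat_of_nonneg (by linarith)]; ring
        exact_mod_cast this
      have c2 : (((⌊Y⌋ + 1 - -⌊Y⌋).toNat : ℕ) : ℝ) = 2 * (⌊Y⌋ : ℝ) + 1 := by
        have : (((⌊Y⌋ + 1 - -⌊Y⌋).toNat : ℕ) : ℤ) = 2 * ⌊Y⌋ + 1 := by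
          rw [Int.toNat_of_nonneg (by linarith)]; ring
        exact_mod_cast this
      rw [Nat.cast_mul, c1, c2]
      have f1 := Int.floor_le X
      have f2 := Int.floor_le Y
      have f3 : (0 : ℝ) ≤ (⌊X⌋ : ℝ) := by exact_mod_cast hfX
      have f4 : (0 : ℝ) ≤ (⌊Y⌋ : ℝ) := by exact_mod_cast hfY
      have h7 : (2 * (⌊X⌋ : ℝ) + 1) * (2 * (⌊Y⌋ : ℝ) + 1) ≤ (3 * X) * (3 * Y) := by
        apply mul_le_mul
        · linarith
        · linarith
        · linarith
        · linarith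
      have h8 : (3 * X) * (3 * Y) ≤ 72 / D := by
        have : (72 : ℝ) / D = 9 * (8 / D) := by ring
        rw [this]
        nlinarith
      linarith

theorem goalPRM : StmtRED → StmtPRM := by
  intro hRED u v hD
  obtain ⟨a, b, c, d, hdet, hle, hprod⟩ := hRED u v hD
  set u' := cb a b u v with hu'
  set v' := cb c d u v with hv'
  have hdr : dr u' v' = dr u v := by
    have : (a : ℝ) * d - b * c = 1 := by exact_mod_cast hdet
    have e : dr u' v' = ((a : ℝ) * d - b * c) * dr u v := by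
      simp only [hu', hv', dr, cb]; ring
    rw [e, this, one_mul]
  obtain ⟨T, hT, hTc⟩ := prm_core u' v' (by rw [hdr]; exact hD) hle (by rw [hdr]; exact hprod)
  rw [hdr] at hTc
  set φ : ℤ × ℤ → ℤ × ℤ := fun w => (w.1 * d - w.2 * c, -w.1 * b + w.2 * a) with hφ
  have hinj : Function.Injective φ := by
    rintro ⟨w1, w2⟩ ⟨z1, z2⟩ h
    simp only [hφ, Prod.mk.injEq] at h
    obtain ⟨h1, h2⟩ := h
    have e1 : w1 = z1 := by
      have : (w1 * d - w2 * c) * a + (-w1 * b + w2 * a) * c =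
        (z1 * d - z2 * c) * a + (-z1 * b + z2 * a) * c := by rw [h1, h2]
      have l : (w1 * d - w2 * c) * a + (-w1 * b + w2 * a) * c = w1 * (a * d - b * c) := by ring
      have r : (z1 * d - z2 * c) * a + (-z1 * b + z2 * a) * c = z1 * (a * d - b * c) := by ring
      rw [l, r, hdet, mul_one, mul_one] at this
      exact this
    have e2 : w2 = z2 := by
      have : (w1 * d - w2 * c) * b + (-w1 * b + w2 * a) * d =
        (z1 * d - z2 * c) * b + (-z1 * b + z2 * a) * d := by rw [h1, h2]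
      have l : (w1 * d - w2 * c) * b + (-w1 * b + w2 * a) * d = w2 * (a * d - b * c) := by ring
      have r : (z1 * d - z2 * c) * b + (-z1 * b + z2 * a) * d = z2 * (a * d - b * c) := by ring
      rw [l, r, hdet, mul_one, mul_one] at this
      exact this
    rw [e1, e2]
  set S : Set (ℤ × ℤ) := {w : ℤ × ℤ | IsCoprime w.1 w.2 ∧ nm (cb w.1 w.2 u v) ≤ 1} with hS
  have hsub : φ '' S ⊆ (T : Set (ℤ × ℤ)) := by
    rintro _ ⟨⟨w1, w2⟩, ⟨hc, hn⟩, rfl⟩
    rw [Finset.mem_coe]
    apply hT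
    · obtain ⟨p, q, hpq⟩ := hc
      refine ⟨p * a + q * b, p * c + q * d, ?_⟩
      simp only at hpq ⊢
      have : (p * a + q * b) * (w1 * d - w2 * c) + (p * c + q * d) * (-w1 * b + w2 * a) =
        (p * w1 + q * w2) * (a * d - b * c) := by ring
      rw [this, hpq, hdet, one_mul]
    · have hcb : cb (w1 * d - w2 * c) (-w1 * b + w2 * a) u' v' = cb w1 w2 u v := by
        have hdet' : (a : ℝ) * d - b * c = 1 := by exact_mod_cast hdet
        simp only [hu', hv', cb, Prod.mk.injEq]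
        push_cast
        constructor
        · have : ((w1 : ℝ) * d - w2 * c) * (a * u.1 + b * v.1) + (-w1 * b + w2 * a) * (c * u.1 + d * v.1) =
            (w1 * u.1 + w2 * v.1) * ((a : ℝ) * d - b * c) := by ring
          rw [this, hdet', mul_one]
        · have : ((w1 : ℝ) * d - w2 * c) * (a * u.2 + b * v.2) + (-w1 * b + w2 * a) * (c * u.2 + d * v.2) =
            (w1 * u.2 + w2 * v.2) * ((a : ℝ) * d - b * c) := by ring
          rw [this, hdet', mul_one]
      simp only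
      rw [hcb]
      exact hn
  have hfin : S.Finite :=
    Set.Finite.of_finite_image (T.finite_toSet.subset hsub) (hinj.injOn)
  refine ⟨hfin, ?_⟩
  have hcard : S.ncard ≤ T.card := by
    rw [← Set.ncard_image_of_injective S hinj, ← Set.ncard_coe_finset T]
    exact Set.ncard_le_ncard hsub T.finite_toSet
  have : (S.ncard : ℝ) ≤ (T.card : ℝ) := by exact_mod_cast hcard
  exact this.trans hTc

end Pool.Agent.Helper3.SM
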